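import Pool.Agent.MP_26cd3b_lc.H27.Hard
import Pool.Agent.MP_26cd3b_lc.H89.Member

set_option autoImplicit false

namespace Pool.Agent.Results.MP_26cd3b_lc.ERComplete

open Pool.Agent.MP_26cd3b_lc Pool.Agent.MP_26cd3b_lc.H27 Pool.Agent.MP_aca74d_lc.H29
  Pool.Agent.Shared.H56

/-- Recognising 1-skeleta of `k`-treetopes is complete for the existential theory of the reals,
for each fixed `k ≥ 5` and with `k ≥ 5` given in the input. -/
theorem result : (∀ k, 5 ≤ k → N793a5b8e.IsCompleteFor ExistsR (treetopeLang k)) ∧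
    N793a5b8e.IsCompleteFor ExistsR treetopeLangIn := by
  have hbr : H89.Bridge := fun k hk _ _ G => H30.bridge k hk G
  refine ⟨fun k hk => ⟨H89.member_fixed hbr k (by omega), fun L hL => ?_⟩, H89.member_in hbr,
    fun L hL => manyOneReducible_trans (manyOneReducible_trans hL (hard_fixed 0)) five_le_in⟩
  obtain ⟨r, rfl⟩ : ∃ r, k = r + 5 := ⟨k - 5, by omega⟩
  exact manyOneReducible_trans hL (hard_fixed r)

end Pool.Agent.Results.MP_26cd3b_lc.ERComplete
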